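import Mathlib
import Pool.Agent.Helper311.Nev.Defs
import Pool.Agent.Helper311.Nev.Main

open MeasureTheory Set Metric
open scoped ENNReal

namespace Pool.Agent.Results.MP_a367a0_an.LogDerivHardy

open Pool.Agent.Helper311.Nev

/-- Sanity check: the image of the open disc is open, connected, bounded, disjoint from the curve,
and its frontier is contained in the curve, so it is a bounded component of the complement. -/
theorem image_ball_component (φ : ℂ → ℂ) (hφc : ContinuousOn φ (closedBall 0 1))
    (hφi : InjOn φ (closedBall 0 1)) (hφd : DifferentiableOn ℂ φ (ball 0 1)) :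
    IsOpen (φ '' ball 0 1) ∧ IsConnected (φ '' ball 0 1) ∧ Bornology.IsBounded (φ '' ball 0 1) ∧
      Disjoint (φ '' ball 0 1) (φ '' sphere 0 1) ∧
      frontier (φ '' ball 0 1) ⊆ φ '' sphere 0 1 := by
  have hopen : IsOpen (φ '' ball 0 1) :=
    P512.isOpen_image isOpen_ball hφd (hφi.mono ball_subset_closedBall) isOpen_ball subset_rfl
  have hcomp : IsCompact (φ '' closedBall 0 1) := (isCompact_closedBall _ _).image_of_continuousOn hφc
  refine ⟨hopen, ?_, hcomp.isBounded.subset (image_mono ball_subset_closedBall), ?_, ?_⟩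
  · refine ((convex_ball (0 : ℂ) 1).isConnected ?_).image φ (hφc.mono ball_subset_closedBall)
    exact ⟨0, by simp⟩
  · rw [Set.disjoint_left]
    rintro _ ⟨z, hz, rfl⟩ ⟨w, hw, hwz⟩
    have h1 := hφi (sphere_subset_closedBall hw) (ball_subset_closedBall hz) hwz
    rw [h1] at hw
    rw [mem_ball_zero_iff] at hz
    rw [mem_sphere_zero_iff_norm] at hw
    linarith
  · intro w hw
    rw [hopen.frontier_eq] at hw
    have h1 : w ∈ φ '' closedBall 0 1 :=
      hcomp.isClosed.closure_subset_iff.2 (image_mono ball_subset_closedBall) hw.1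
    obtain ⟨z, hz, rfl⟩ := h1
    refine ⟨z, ?_, rfl⟩
    rw [mem_sphere_zero_iff_norm]
    rw [mem_closedBall_zero_iff] at hz
    by_contra hne
    exact hw.2 ⟨z, by rw [mem_ball_zero_iff]; exact lt_of_le_of_ne hz hne, rfl⟩

/-- **Main theorem.** Let `φ` be continuous and injective on the closed unit disc and analytic in
the open disc, with rectifiable boundary curve `Γ = φ(𝕋)` (so `Γ` is a closed rectifiable Jordan
curve, `φ(𝔻) = Int Γ`, and by Carathéodory's theorem every such curve, with any conformal map of
the disc onto its interior, arises like this). Then `Γ` has property (N) if and only if the radial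
maximal function of `log⁺ (1 / |φ'|)` is integrable on the unit circle. -/
theorem result (φ : ℂ → ℂ) (hφc : ContinuousOn φ (closedBall 0 1))
    (hφi : InjOn φ (closedBall 0 1)) (hφd : DifferentiableOn ℂ φ (ball 0 1))
    (hrect : eVariationOn (fun t : ℝ => φ (Complex.exp (t * Complex.I)))
      (Icc 0 (2 * Real.pi)) < ∞) :
    PropertyN (φ '' sphere 0 1) (φ '' ball 0 1) ↔
      ∫⁻ θ in Icc 0 (2 * Real.pi), ⨆ r ∈ Ico (0 : ℝ) 1,
        ENNReal.ofReal (Real.posLog ‖deriv φ (r * Complex.exp (θ * Complex.I))‖⁻¹) < ∞ := by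
  have h1 : (fun t : ℝ => φ (Complex.exp (t * Complex.I))) = fun t : ℝ => φ (circleMap 0 1 t) := by
    funext t
    simp [circleMap]
  have h2 : ∀ r θ : ℝ, (r : ℂ) * Complex.exp (θ * Complex.I) = circleMap 0 r θ := by
    intro r θ
    simp [circleMap]
  simp_rw [h2]
  rw [h1] at hrect
  exact ⟨fun h => necessity φ hφc hφi hφd h, fun h => sufficiency φ hφc hφi hφd hrect h⟩

end Pool.Agent.Results.MP_a367a0_an.LogDerivHardy
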